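import Pool.Agent.N718.GC.Stm
import Pool.Agent.N286.DC.ARI

/-!
# The product formula for the symbols (project GC, part PROD)
-/

set_option autoImplicit false
set_option linter.all false

namespace Pool.Agent.N523.GC

open Finset Pool.Agent.N718.DC Pool.Agent.N718.GC Pool.Agent.W313.BMX

theorem splits_of_nm {K : Type} [Field K] {a N : K} (h : Nm a N) : Splits N a := by
  obtain ⟨y, z, h1⟩ := h
  refine ⟨1, z, y, Or.inl one_ne_zero, ?_⟩
  rw [one_pow, mul_one, ← h1]
  ring

/-- the part coprime to `M` and the complementary part -/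
theorem cop_split (M : ℕ) (N : ℤ) (hN : N ≠ 0) : ∃ g : ℕ, N.natAbs = g * cop M N ∧ 0 < g ∧
    (∀ p : ℕ, p.Prime → p ∣ g → p ∣ M) ∧ (∀ p : ℕ, p.Prime → p ∣ cop M N → ¬ p ∣ M) := by
  have hN' : N.natAbs ≠ 0 := Int.natAbs_ne_zero.2 hN
  refine ⟨∏ p ∈ N.natAbs.primeFactors.filter (fun p => p ∣ M), p ^ padicValNat p N.natAbs,
    ?_, ?_, ?_, ?_⟩
  · have h1 := Nat.prod_factorization_pow_eq_self hN'
    rw [Nat.prod_factorization_eq_prod_primeFactors] at h1
    unfold cop
    rw [Finset.prod_filter_mul_prod_filter_not]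
    conv_lhs => rw [← h1]
    refine Finset.prod_congr rfl fun p hp => ?_
    rw [Nat.factorization_def _ (Nat.prime_of_mem_primeFactors hp)]
  · refine Finset.prod_pos fun p hp => ?_
    have := (Nat.prime_of_mem_primeFactors (Finset.mem_filter.1 hp).1).pos
    positivity
  · intro p hp hd
    obtain ⟨q, hq, hd⟩ := (Prime.dvd_finset_prod_iff hp.prime _).1 hd
    have h1 := hp.dvd_of_dvd_pow hd
    have h2 := (Nat.prime_dvd_prime_iff_eq hp
      (Nat.prime_of_mem_primeFactors (Finset.mem_filter.1 hq).1)).1 h1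
    rw [h2]
    exact (Finset.mem_filter.1 hq).2
  · intro p hp hd
    unfold cop at hd
    obtain ⟨q, hq, hd⟩ := (Prime.dvd_finset_prod_iff hp.prime _).1 hd
    have h1 := hp.dvd_of_dvd_pow hd
    have h2 := (Nat.prime_dvd_prime_iff_eq hp
      (Nat.prime_of_mem_primeFactors (Finset.mem_filter.1 hq).1)).1 h1
    rw [h2]
    exact (Finset.mem_filter.1 hq).2

theorem prod_ (h1 : S_KAP) (h2 : S_LOCN) : S_PROD := by
  intro M a N ha hN hC hreal hloc
  obtain ⟨l1, l2, l3, l4⟩ := h2
  obtain ⟨hM1, h2M, haM⟩ := hC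
  obtain ⟨g, hNg, hg0, hgM, hnM⟩ := cop_split M N hN
  set n := cop M N with hn
  have hNn0 : N.natAbs ≠ 0 := Int.natAbs_ne_zero.2 hN
  have hn0 : 0 < n := by
    rcases Nat.eq_zero_or_pos n with h | h
    · rw [h, mul_zero] at hNg
      exact absurd hNg hNn0
    · exact h
  have haa : a.natAbs ≠ 0 := Int.natAbs_ne_zero.2 ha
  -- the prime
  have hcopM : n.Coprime M := by
    apply Nat.Coprime.symm
    apply Nat.coprime_of_dvd
    intro k hk hkM hkn
    exact hnM k hk hkn hkM
  have hcop4 : n.Coprime 4 := by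
    have : n.Coprime 2 := Nat.Coprime.coprime_dvd_right h2M hcopM
    exact Nat.Coprime.pow_right 2 this
  have hcopa : n.Coprime a.natAbs := by
    apply Nat.Coprime.symm
    apply Nat.coprime_of_dvd
    intro k hk hka hkn
    exact hnM k hk hkn (haM k hk (Int.natCast_dvd.2 hka))
  have hcopQ : n.Coprime (4 * a.natAbs * M ^ 3) :=
    Nat.Coprime.mul_right (Nat.Coprime.mul_right hcop4 hcopa) (Nat.Coprime.pow_right 3 hcopM)
  have hQ0 : 4 * a.natAbs * M ^ 3 ≠ 0 := by positivity
  obtain ⟨P, hPgt, hPp, hPmod⟩ := Nat.forall_exists_prime_gt_and_modEq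
    (N.natAbs + a.natAbs + M) hQ0 hcopQ
  haveI : Fact P.Prime := ⟨hPp⟩
  have hPM : ¬ P ∣ M := fun h => by
    have := Nat.le_of_dvd hM1 h
    omega
  have hP2 : P ≠ 2 := fun h => hPM (h ▸ h2M)
  have hPa : ¬ (P : ℤ) ∣ a := fun h => by
    have := Nat.le_of_dvd (Nat.pos_of_ne_zero haa) (Int.natCast_dvd.1 h)
    omega
  have hPg : ¬ P ∣ g := fun h => hPM (hgM P hPp h)
  -- the new right hand side
  set σ : ℤ := N.sign with hσ
  have hσ1 : σ = 1 ∨ σ = -1 := by
    rcases lt_or_gt_of_ne hN with h | h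
    · exact Or.inr (Int.sign_eq_neg_one_of_neg h)
    · exact Or.inl (Int.sign_eq_one_of_pos h)
  have hNe : N = σ * g * n := by
    have e1 : σ * (N.natAbs : ℤ) = N := Int.sign_mul_natAbs N
    rw [hNg] at e1
    rw [← e1]
    push_cast
    ring
  set N' : ℤ := (P : ℤ) * (σ * g) with hN'
  have hσ0 : σ ≠ 0 := by rcases hσ1 with h | h <;> rw [h] <;> norm_num
  have hN'0 : N' ≠ 0 := by
    have e1 : (P : ℤ) ≠ 0 := by exact_mod_cast hPp.ne_zero
    have e2 : (g : ℤ) ≠ 0 := by exact_mod_cast hg0.ne'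
    exact mul_ne_zero e1 (mul_ne_zero hσ0 e2)
  have hPσg : ¬ (P : ℤ) ∣ σ * g := by
    intro h
    apply hPg
    rcases hσ1 with e | e <;> rw [e] at h
    · rw [one_mul] at h
      exact_mod_cast h
    · rw [neg_one_mul, dvd_neg] at h
      exact_mod_cast h
  -- the place at infinity
  have hR : Nm (a : ℝ) (N' : ℝ) := by
    rw [l4 (a : ℝ) (N' : ℝ) (by exact_mod_cast ha) (by exact_mod_cast hN'0)]
    rcases hreal with h | h
    · left
      exact_mod_cast h
    · right
      have e : σ = 1 := Int.sign_eq_one_of_pos h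
      have : 0 < N' := by
        rw [hN', e, one_mul]
        have := hPp.pos
        positivity
      exact_mod_cast this
  -- the finite places
  have hfin : ∀ (p : ℕ) [Fact p.Prime], p ≠ P → Nm (a : ℚ_[p]) (N' : ℚ_[p]) := by
    intro p hp hpP
    by_cases hpM : p ∣ M
    · have hk : ¬ (p : ℤ) ^ (padicValNat p N.natAbs + 1) ∣ N := by
        intro h
        have h3 : p ^ (padicValNat p N.natAbs + 1) ∣ N.natAbs := by
          rw [← Int.natCast_dvd]
          push_cast
          exact h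
        rw [padicValNat_dvd_iff_le hNn0] at h3
        omega
      have hdv : p ^ padicValNat p N.natAbs ∣ g := by
        have h3 : p ^ padicValNat p N.natAbs ∣ g * n := by
          rw [← hNg]
          exact pow_padicValNat_dvd
        have h4 : Nat.Coprime (p ^ padicValNat p N.natAbs) n := by
          apply Nat.Coprime.pow_left
          rw [Nat.Prime.coprime_iff_not_dvd hp.out]
          exact fun h => hnM p hp.out h hpM
        exact h4.dvd_of_dvd_mul_right h3
      have hd3 : (p : ℤ) ^ 3 ∣ (n : ℤ) - P := by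
        have h3 : ((4 * a.natAbs * M ^ 3 : ℕ) : ℤ) ∣ (n : ℤ) - P :=
          (Nat.modEq_iff_dvd).1 hPmod
        have h4 : ((p ^ 3 : ℕ) : ℤ) ∣ ((4 * a.natAbs * M ^ 3 : ℕ) : ℤ) := by
          exact_mod_cast dvd_mul_of_dvd_right (pow_dvd_pow_of_dvd hpM 3) _
        have h5 := h4.trans h3
        push_cast at h5
        exact h5
      have hd : (p : ℤ) ^ (padicValNat p N.natAbs + 3) ∣ N - N' := by
        have e1 : N - N' = σ * ((g : ℤ) * ((n : ℤ) - P)) := by
          rw [hNe, hN']
          ring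
        rw [e1, pow_add]
        apply dvd_mul_of_dvd_right
        exact mul_dvd_mul (by exact_mod_cast hdv) hd3
      obtain ⟨z, hz0, hz⟩ := l2 p N N' _ hk hd
      rw [hz]
      exact l3 _ _ _ z (hloc p hpM)
    · have hp2 : p ≠ 2 := fun h => hpM (h ▸ h2M)
      have hpa : ¬ (p : ℤ) ∣ a := fun h => hpM (haM p hp.out h)
      apply l1 p a N' hp2 hpa hN'0
      left
      have hnd : ¬ p ∣ N'.natAbs := by
        intro h
        have h3 : N'.natAbs = P * g := by
          rw [hN', Int.natAbs_mul, Int.natAbs_mul, Int.natAbs_natCast, Int.natAbs_natCast]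
          rcases hσ1 with e | e <;> rw [e] <;> simp
        rw [h3] at h
        rcases (Nat.Prime.dvd_mul hp.out).1 h with h | h
        · exact hpP ((Nat.prime_dvd_prime_iff_eq hp.out hPp).1 h)
        · exact hpM (hgM p hp.out h)
      rw [padicValNat.eq_zero_of_not_dvd hnd]
      exact Even.zero
  have hP : Splits (N' : ℚ_[P]) (a : ℚ_[P]) :=
    Pool.Agent.N286.DC.pf0 N' a hN'0 ha P (splits_of_nm hR)
      (fun p hp hpP => by exact splits_of_nm (hfin p hpP))
  have hleg : legendreSym P a = 1 :=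
    (Pool.Agent.W335.BMX.odd3 P hP2 (σ * g) a hPσg hPa).1 hP
  have hjP : jacobiSym a P = 1 := by
    rw [← jacobiSym.legendreSym.to_jacobiSym]
    exact hleg
  have hPodd : Odd P := hPp.odd_of_ne_two hP2
  have hnodd : Odd n := by
    rw [← Nat.not_even_iff_odd]
    intro h
    exact hnM 2 Nat.prime_two h.two_dvd h2M
  show jacobiSym a n = 1
  rw [jacobiSym.mod_right a hnodd]
  rw [jacobiSym.mod_right a hPodd] at hjP
  have hmod : n % (4 * a.natAbs) = P % (4 * a.natAbs) :=
    (hPmod.of_dvd (dvd_mul_right _ _)).symm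
  rw [hmod]
  exact hjP

end Pool.Agent.N523.GC
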